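import Pool.Agent.helper4.QX.SpecF

set_option autoImplicit false

/-!
# Row ELO of project QX (MP_07c750): the key inequality at bounded frequency with a polynomial constant
-/

open scoped MatrixGroups ContDiff Topology UpperHalfPlane
open UpperHalfPlane MeasureTheory ProbabilityTheory Filter Set Polynomial
open Pool.Agent.QU Pool.Agent.RP

namespace Pool.Agent.QX

theorem ELO_BFun (Γ : Subgroup SL(2, ℝ)) (w : ℍ → ℝ) (a : ℝ) (ha : 0 < a) (cw : Continuous w)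
    (sw : HasCompactSupport w) : BFun Γ (fun f => (∫ z : ℍ, f z * w z) / a) := by
  refine ⟨?_, ?_, ⟨(∫ z : ℍ, |w z|) / a, ?_⟩⟩
  · intro f g hf hg
    show (∫ z : ℍ, (f z + g z) * w z) / a = (∫ z : ℍ, f z * w z) / a + (∫ z : ℍ, g z * w z) / a
    rw [← add_div, ← integral_add]
    · congr 1
      refine integral_congr_ae (Eventually.of_forall fun z => ?_)
      show (f z + g z) * w z = f z * w z + g z * w z
      ring
    · exact KLI_int (hf.1.mul cw) sw.mul_left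
    · exact KLI_int (hg.1.mul cw) sw.mul_left
  · intro c f hf
    show (∫ z : ℍ, (c * f z) * w z) / a = c * ((∫ z : ℍ, f z * w z) / a)
    rw [← mul_div_assoc, ← integral_const_mul]
    congr 1
    refine integral_congr_ae (Eventually.of_forall fun z => ?_)
    show c * f z * w z = c * (f z * w z)
    ring
  · intro f m hf hm
    show |(∫ z : ℍ, f z * w z) / a| ≤ (∫ z : ℍ, |w z|) / a * m
    rw [abs_div, abs_of_pos ha, div_mul_eq_mul_div]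
    refine div_le_div_of_nonneg_right ?_ ha.le
    rw [mul_comm]
    exact KLI_abs m hf.1 hm cw sw

theorem ELO_num1 (a F X D c μ s : ℝ) (hμ : 0 ≤ μ) (s0 : 0 < s) (s1 : s ≤ 1) (ha : 0 < a)
    (hX0 : 0 ≤ X) (hD0 : 0 ≤ D) (hF : F ≤ s ^ 16 * a) (h1 : X ^ 2 ≤ F * D)
    (h2 : D + X = c + (μ - 1 / 4) * a) (h3 : c ^ 2 ≤ a * F) :
    -s ^ 8 ≤ μ - 1 / 4 ∧ D ≤ (μ - 1 / 4 + s ^ 8) * a ∧ X ≤ s ^ 8 * (1 + μ) * a := by
  have hs8 : s ^ 8 ≤ 1 := pow_le_one₀ s0.le s1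
  have hs80 : 0 < s ^ 8 := by positivity
  have hc : |c| ≤ s ^ 8 * a := by
    apply abs_le_of_sq_le_sq _ (by positivity)
    calc c ^ 2 ≤ a * F := h3
      _ ≤ a * (s ^ 16 * a) := mul_le_mul_of_nonneg_left hF ha.le
      _ = (s ^ 8 * a) ^ 2 := by ring
  have hc' := abs_le.1 hc
  have hD : D ≤ (μ - 1 / 4 + s ^ 8) * a := by
    have e : (μ - 1 / 4 + s ^ 8) * a = (μ - 1 / 4) * a + s ^ 8 * a := by ring
    rw [e]
    linarith [hc'.2]
  have hD1 : D ≤ (1 + μ) * a := by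
    refine hD.trans (mul_le_mul_of_nonneg_right ?_ ha.le)
    linarith
  refine ⟨?_, hD, ?_⟩
  · have h4 : 0 ≤ (μ - 1 / 4 + s ^ 8) * a := hD0.trans hD
    have h5 : 0 ≤ μ - 1 / 4 + s ^ 8 := by
      by_contra hcon
      push Not at hcon
      have := mul_neg_of_neg_of_pos hcon ha
      linarith
    linarith
  · have h4 : |X| ≤ s ^ 8 * (1 + μ) * a := by
      apply abs_le_of_sq_le_sq _ (by positivity)
      calc X ^ 2 ≤ F * D := h1
        _ ≤ (s ^ 16 * a) * ((1 + μ) * a) := mul_le_mul hF hD1 hD0 (by positivity)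
        _ ≤ (s ^ 16 * a) * ((1 + μ) ^ 2 * a) := by
          apply mul_le_mul_of_nonneg_left _ (by positivity)
          apply mul_le_mul_of_nonneg_right _ ha.le
          nlinarith
        _ = (s ^ 8 * (1 + μ) * a) ^ 2 := by ring
    exact (le_abs_self _).trans h4

theorem ELO_sq (Y y a : ℝ) (hy : 0 ≤ y) (h : Y ≤ y ^ 2 * a) : Real.sqrt Y ≤ y * Real.sqrt a := by
  calc Real.sqrt Y ≤ Real.sqrt (y ^ 2 * a) := Real.sqrt_le_sqrt h
    _ = y * Real.sqrt a := by rw [Real.sqrt_mul (sq_nonneg y), Real.sqrt_sq hy]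

theorem ELO_num2 (a F X D Cg μ s : ℝ) (hμ : 0 ≤ μ) (s0 : 0 < s) (s1 : s ≤ 1) (ha : 0 < a)
    (hC : 0 ≤ Cg) (hF : F ≤ s ^ 16 * a) (hD : D ≤ (1 + μ) * a) (hX : X ≤ s ^ 8 * (1 + μ) * a) :
    1000 * Cg * (1 + |μ - 1 / 4|) * ((Real.sqrt F + Real.sqrt X) *
      (Real.sqrt a + Real.sqrt D + Real.sqrt X + Real.sqrt F)) ≤
      16000 * Cg * (1 + μ) ^ 3 * s ^ 4 * a := by
  have hs4 : s ^ 4 ≤ 1 := pow_le_one₀ s0.le s1
  have hs40 : 0 < s ^ 4 := by positivity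
  have hs84 : s ^ 8 ≤ s ^ 4 := pow_le_pow_of_le_one s0.le s1 (by norm_num)
  have h1μ : 1 ≤ 1 + μ := by linarith
  have h2μ : 1 + μ ≤ (1 + μ) ^ 2 := by nlinarith
  have hF' : Real.sqrt F ≤ s ^ 8 * Real.sqrt a :=
    ELO_sq F (s ^ 8) a (by positivity) (by rw [← pow_mul]; exact hF)
  have hX' : Real.sqrt X ≤ s ^ 4 * (1 + μ) * Real.sqrt a := by
    apply ELO_sq X (s ^ 4 * (1 + μ)) a (by positivity)
    calc X ≤ s ^ 8 * (1 + μ) * a := hX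
      _ ≤ s ^ 8 * (1 + μ) ^ 2 * a := by gcongr
      _ = (s ^ 4 * (1 + μ)) ^ 2 * a := by ring
  have hD' : Real.sqrt D ≤ (1 + μ) * Real.sqrt a := by
    apply ELO_sq D (1 + μ) a (by positivity)
    exact hD.trans (mul_le_mul_of_nonneg_right h2μ ha.le)
  have hra : 0 ≤ Real.sqrt a := Real.sqrt_nonneg a
  have haa : Real.sqrt a * Real.sqrt a = a := Real.mul_self_sqrt ha.le
  have hF'' : Real.sqrt F ≤ s ^ 4 * (1 + μ) * Real.sqrt a := by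
    refine hF'.trans (mul_le_mul_of_nonneg_right ?_ hra)
    calc s ^ 8 ≤ s ^ 4 := hs84
      _ ≤ s ^ 4 * (1 + μ) := le_mul_of_one_le_right hs40.le h1μ
  have h3 : Real.sqrt F + Real.sqrt X ≤ 2 * s ^ 4 * (1 + μ) * Real.sqrt a := by linarith
  have h4 : s ^ 4 * (1 + μ) * Real.sqrt a ≤ (1 + μ) * Real.sqrt a := by
    apply mul_le_mul_of_nonneg_right _ hra
    exact mul_le_of_le_one_left (by linarith) hs4
  have h5 : Real.sqrt a ≤ (1 + μ) * Real.sqrt a := le_mul_of_one_le_left hra h1μ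
  have h6 : Real.sqrt a + Real.sqrt D + Real.sqrt X + Real.sqrt F ≤ 4 * (1 + μ) * Real.sqrt a := by
    linarith
  have h7 : 1 + |μ - 1 / 4| ≤ 2 * (1 + μ) := by
    have : |μ - 1 / 4| ≤ μ + 1 / 4 := by
      rw [abs_le]; constructor <;> linarith
    linarith
  have h8 : (Real.sqrt F + Real.sqrt X) *
      (Real.sqrt a + Real.sqrt D + Real.sqrt X + Real.sqrt F) ≤
      (2 * s ^ 4 * (1 + μ) * Real.sqrt a) * (4 * (1 + μ) * Real.sqrt a) :=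
    mul_le_mul h3 h6 (by positivity) (by positivity)
  calc 1000 * Cg * (1 + |μ - 1 / 4|) * ((Real.sqrt F + Real.sqrt X) *
      (Real.sqrt a + Real.sqrt D + Real.sqrt X + Real.sqrt F)) ≤
      1000 * Cg * (2 * (1 + μ)) * ((2 * s ^ 4 * (1 + μ) * Real.sqrt a) * (4 * (1 + μ) * Real.sqrt a)) := by
        apply mul_le_mul _ h8 (by positivity) (by positivity)
        exact mul_le_mul_of_nonneg_left h7 (by positivity)
    _ = 16000 * Cg * (1 + μ) ^ 3 * s ^ 4 * (Real.sqrt a * Real.sqrt a) := by ring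
    _ = 16000 * Cg * (1 + μ) ^ 3 * s ^ 4 * a := by rw [haa]

/-- the estimates for the weights -/
theorem ELO_w1 {u : ℍ → ℝ} (hu : CD 2 u) (hs : HasCompactSupport u) (a : ℝ)
    (ha : ∫ z : ℍ, u z ^ 2 = a) :
    (∫ z : ℍ, |u z * dD u z|) ^ 2 ≤ a * ∫ z : ℍ, dD u z ^ 2 := by
  have cu := KLI_u_cont hu
  have cD := KLI_dD_cont hu
  have sD := KLI_dD_supp hs
  have h1 := KLI_CS cu.abs cD.abs (hs.comp_left (g := fun x : ℝ => |x|) abs_zero)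
    (sD.comp_left (g := fun x : ℝ => |x|) abs_zero)
  have e1 : ∫ z : ℍ, |u z * dD u z| = ∫ z : ℍ, |u z| * |dD u z| :=
    integral_congr_ae (Eventually.of_forall fun z => abs_mul _ _)
  have e2 : ∫ z : ℍ, |u z| ^ 2 = a := by
    rw [← ha]
    exact integral_congr_ae (Eventually.of_forall fun z => sq_abs _)
  have e3 : ∫ z : ℍ, |dD u z| ^ 2 = ∫ z : ℍ, dD u z ^ 2 :=
    integral_congr_ae (Eventually.of_forall fun z => sq_abs _)
  rw [← e1, e2, e3] at h1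
  exact h1

theorem ELO_w2 {u : ℍ → ℝ} (hu : CD 2 u) (hs : HasCompactSupport u) (R : ℝ) :
    ∫ z : ℍ, |dD u z ^ 2 - R * u z ^ 2| ≤ (∫ z : ℍ, dD u z ^ 2) + |R| * ∫ z : ℍ, u z ^ 2 := by
  have cu := KLI_u_cont hu
  have cD := KLI_dD_cont hu
  have sD := KLI_dD_supp hs
  rw [← integral_const_mul, ← integral_add]
  · refine integral_mono (KLI_int (((cD).pow 2).sub (continuous_const.mul (cu.pow 2)))
      ((KLI_sq_supp sD).sub ((KLI_sq_supp hs).mul_left))).abs ?_ fun z => ?_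
    · exact (KLI_int (cD.pow 2) (KLI_sq_supp sD)).add
        ((KLI_int (cu.pow 2) (KLI_sq_supp hs)).const_mul _)
    · show |dD u z ^ 2 - R * u z ^ 2| ≤ dD u z ^ 2 + |R| * u z ^ 2
      refine (abs_sub _ _).trans ?_
      rw [abs_mul, abs_of_nonneg (sq_nonneg (dD u z)), abs_of_nonneg (sq_nonneg (u z))]
  · exact KLI_int (cD.pow 2) (KLI_sq_supp sD)
  · exact (KLI_int (cu.pow 2) (KLI_sq_supp hs)).const_mul _

theorem ELO_split {u g : ℍ → ℝ} (hu : CD 2 u) (hs : HasCompactSupport u) (cg : Continuous g)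
    (R : ℝ) : ∫ z : ℍ, g z * (dD u z ^ 2 - R * u z ^ 2) =
      (∫ z : ℍ, g z * dD u z ^ 2) - R * ∫ z : ℍ, g z * u z ^ 2 := by
  have cu := KLI_u_cont hu
  have cD := KLI_dD_cont hu
  have sD := KLI_dD_supp hs
  rw [← integral_const_mul, ← integral_sub]
  · refine integral_congr_ae (Eventually.of_forall fun z => ?_)
    show g z * (dD u z ^ 2 - R * u z ^ 2) = g z * dD u z ^ 2 - R * (g z * u z ^ 2)
    ring
  · exact KLI_int (cg.mul (cD.pow 2)) (KLI_sq_supp sD).mul_left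
  · exact (KLI_int (cg.mul (cu.pow 2)) (KLI_sq_supp hs).mul_left).const_mul _

/-- the final numerical step -/
theorem ELO_num3 (A₁ A₂ η μ s R E1 al de ka : ℝ) (hA₁ : 1 ≤ A₁) (hA₂ : 1 ≤ A₂) (hη : 0 < η)
    (hη1 : η ≤ 1) (hμ : 0 ≤ μ) (s0 : 0 < s) (s1 : s ≤ 1)
    (hE1 : E1 = 16000 * (A₁ / η ^ 5) * (1 + μ) ^ 3 * s ^ 4)
    (h1 : |al + 2 * de + 2 * ka| ≤ E1)
    (h2 : s ^ 2 ≤ R → de ^ 2 + 4 * R * ka ^ 2 ≤ A₂ / η ^ 4 * (E1 * (2 * (1 + μ))))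
    (h3 : R < s ^ 2 → |de| ≤ 3 * s ^ 2 ∧ |ka| ≤ 2 * s) :
    |al| ≤ 11 * (32000 * A₁ * A₂ * (1 + μ) ^ 3 * s / η ^ 5) := by
  obtain ⟨T, hT⟩ : ∃ T : ℝ, T = 32000 * A₁ * A₂ * (1 + μ) ^ 3 * s / η ^ 5 := ⟨_, rfl⟩
  rw [← hT]
  have hA12 : 1 ≤ A₁ * A₂ := one_le_mul_of_one_le_of_one_le hA₁ hA₂
  have hB : 1 ≤ 32000 * A₁ * A₂ := by nlinarith
  have h1μ : 1 ≤ 1 + μ := by linarith
  have h3μ : 1 ≤ (1 + μ) ^ 3 := one_le_pow₀ h1μ
  have hη5 : η ^ 5 ≤ 1 := pow_le_one₀ hη.le hη1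
  have hη50 : 0 < η ^ 5 := by positivity
  have hT0 : 0 < T := by rw [hT]; positivity
  have hs2 : s ^ 2 ≤ s := by nlinarith
  have hs42 : s ^ 4 ≤ s ^ 2 := pow_le_pow_of_le_one s0.le s1 (by norm_num)
  have hs4 : s ^ 4 ≤ s := hs42.trans hs2
  have hsT : s ≤ T := by
    rw [hT, le_div_iff₀ hη50]
    calc s * η ^ 5 ≤ s * 1 := mul_le_mul_of_nonneg_left hη5 s0.le
      _ ≤ s * (32000 * A₁ * A₂ * (1 + μ) ^ 3) := by
        apply mul_le_mul_of_nonneg_left _ s0.le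
        exact one_le_mul_of_one_le_of_one_le hB h3μ
      _ = 32000 * A₁ * A₂ * (1 + μ) ^ 3 * s := by ring
  have hE1T : E1 ≤ T := by
    rw [hE1, hT, le_div_iff₀ hη50]
    calc 16000 * (A₁ / η ^ 5) * (1 + μ) ^ 3 * s ^ 4 * η ^ 5 = 16000 * A₁ * (1 + μ) ^ 3 * s ^ 4 := by
          field_simp
      _ ≤ 16000 * A₁ * (1 + μ) ^ 3 * s := mul_le_mul_of_nonneg_left hs4 (by positivity)
      _ ≤ 32000 * A₁ * A₂ * (1 + μ) ^ 3 * s := by
        have h5 : 16000 * A₁ ≤ 32000 * A₁ * A₂ := by nlinarith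
        gcongr
  have habs : |al| ≤ E1 + 2 * |de| + 2 * |ka| := by
    have e : al = (al + 2 * de + 2 * ka) - 2 * de - 2 * ka := by ring
    calc |al| = |(al + 2 * de + 2 * ka) - 2 * de - 2 * ka| := by rw [← e]
      _ ≤ |(al + 2 * de + 2 * ka) - 2 * de| + |2 * ka| := abs_sub _ _
      _ ≤ |al + 2 * de + 2 * ka| + |2 * de| + |2 * ka| := by
        have := abs_sub (al + 2 * de + 2 * ka) (2 * de)
        linarith
      _ ≤ E1 + 2 * |de| + 2 * |ka| := by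
        rw [abs_mul, abs_mul, abs_two]
        linarith
  rcases le_or_gt (s ^ 2) R with hR | hR
  · have h4 := h2 hR
    have hR0 : 0 < R := lt_of_lt_of_le (by positivity) hR
    have e1 : A₂ / η ^ 4 * (E1 * (2 * (1 + μ))) = 32000 * A₁ * A₂ * (1 + μ) ^ 4 * s ^ 4 / η ^ 9 := by
      rw [hE1]
      field_simp
      ring
    rw [e1] at h4
    have hη9 : η ^ 10 ≤ η ^ 9 := pow_le_pow_of_le_one hη.le hη1 (by norm_num)
    have e2 : 32000 * A₁ * A₂ * (1 + μ) ^ 4 * s ^ 2 / η ^ 9 ≤ T ^ 2 := by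
      have e3 : T ^ 2 = (32000 * A₁ * A₂ * (1 + μ) ^ 3 * s) ^ 2 / η ^ 10 := by
        rw [hT, div_pow]
        congr 1
        ring
      rw [e3]
      apply div_le_div₀ (by positivity) _ (by positivity) hη9
      have e4 : (32000 * A₁ * A₂ * (1 + μ) ^ 3 * s) ^ 2 =
          (32000 * A₁ * A₂ * (1 + μ) ^ 4 * s ^ 2) * (32000 * A₁ * A₂ * (1 + μ) ^ 2) := by ring
      rw [e4]
      apply le_mul_of_one_le_right (by positivity)
      exact one_le_mul_of_one_le_of_one_le hB (one_le_pow₀ h1μ)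
    have hde : |de| ≤ T := by
      apply abs_le_of_sq_le_sq _ hT0.le
      refine le_trans ?_ e2
      have h5 : 0 ≤ 4 * R * ka ^ 2 := by positivity
      have h6 : 32000 * A₁ * A₂ * (1 + μ) ^ 4 * s ^ 4 / η ^ 9 ≤
          32000 * A₁ * A₂ * (1 + μ) ^ 4 * s ^ 2 / η ^ 9 := by
        apply div_le_div_of_nonneg_right _ (by positivity)
        exact mul_le_mul_of_nonneg_left hs42 (by positivity)
      linarith
    have hka : |ka| ≤ T := by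
      apply abs_le_of_sq_le_sq _ hT0.le
      refine le_trans ?_ e2
      have h5 : s ^ 2 * ka ^ 2 ≤ s ^ 2 * (32000 * A₁ * A₂ * (1 + μ) ^ 4 * s ^ 2 / η ^ 9) := by
        have h6 : s ^ 2 * ka ^ 2 ≤ 4 * R * ka ^ 2 := by
          apply mul_le_mul_of_nonneg_right _ (sq_nonneg ka)
          linarith
        have h7 : s ^ 2 * (32000 * A₁ * A₂ * (1 + μ) ^ 4 * s ^ 2 / η ^ 9) =
            32000 * A₁ * A₂ * (1 + μ) ^ 4 * s ^ 4 / η ^ 9 := by ring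
        rw [h7]
        have h8 : 0 ≤ de ^ 2 := sq_nonneg _
        linarith
      exact le_of_mul_le_mul_left h5 (by positivity)
    linarith
  · obtain ⟨h4, h5⟩ := h3 hR
    linarith

theorem ELO_core (κ₁ : ℝ → ℝ) (Γ : Subgroup SL(2, ℝ)) (A₁ A₂ : ℝ) (hA₁ : 1 ≤ A₁) (hA₂ : 1 ≤ A₂)
    (hEGB : ∀ (η : ℝ) (f : ℍ → ℝ) (m : ℝ), 0 < η → η ≤ 1 → Continuous f → (∀ z, |f z| ≤ m) →
      (∀ z, |BB κ₁ η f z| ≤ m) ∧ FB (BB κ₁ η f) (A₁ / η ^ 5 * m) ∧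
        FB (lap (BB κ₁ η f)) (A₁ / η ^ 5 * m))
    (hEAB : ∀ (η R N E : ℝ) (δ κ' : (ℍ → ℝ) → ℝ), 0 < η → η ≤ 1 → 0 ≤ R →
      0 ≤ N → 0 ≤ E → BFun Γ δ → BFun Γ κ' →
      (∀ (f : ℍ → ℝ) (m : ℝ), Inv Γ f → (∀ z, |f z| ≤ m) → |δ f| ≤ N * m ∧ |κ' f| ≤ N * m) →
      (∀ (f : ℍ → ℝ) (m : ℝ), Inv Γ f → (∀ z, |f z| ≤ m) →
        |δ (lap (BB κ₁ η f)) - (4 * R * κ' (BB κ₁ η f) + 4 * R * δ (BB κ₁ η f))| ≤ E * m ∧
        |κ' (lap (BB κ₁ η f)) - (4 * R * κ' (BB κ₁ η f) - δ (BB κ₁ η f))| ≤ E * m) →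
      ∀ f : ℍ → ℝ, Inv Γ f → (∀ z, |f z| ≤ 1) →
        δ (BB κ₁ η f) ^ 2 + 4 * R * κ' (BB κ₁ η f) ^ 2 ≤ A₂ / η ^ 4 * (E * N))
    (η μ s : ℝ) (g₀ u : ℍ → ℝ) (hη : 0 < η) (hη1 : η ≤ 1) (hμ : 0 ≤ μ) (s0 : 0 < s) (s1 : s ≤ 1)
    (hg₀ : Inv Γ g₀) (hg1 : ∀ z, |g₀ z| ≤ 1) (hu : CD 2 u) (hs : HasCompactSupport u) (a : ℝ)
    (ha : ∫ z : ℍ, u z ^ 2 = a) (ha0 : 0 < a)
    (hFs : ∫ z : ℍ, (lap u z - μ * u z) ^ 2 ≤ s ^ 16 * a) :
    |∫ z : ℍ, lap (BB κ₁ η g₀) z * u z ^ 2| ≤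
      11 * (32000 * A₁ * A₂ * (1 + μ) ^ 3 * s / η ^ 5) * a := by
  obtain ⟨F2, hF2⟩ : ∃ F2 : ℝ, ∫ z : ℍ, (lap u z - μ * u z) ^ 2 = F2 := ⟨_, rfl⟩
  obtain ⟨X, hX⟩ : ∃ X : ℝ, ∫ z : ℍ, dX u z ^ 2 = X := ⟨_, rfl⟩
  obtain ⟨D, hD⟩ : ∃ D : ℝ, ∫ z : ℍ, dD u z ^ 2 = D := ⟨_, rfl⟩
  obtain ⟨R, hRd⟩ : ∃ R : ℝ, R = μ - 1 / 4 := ⟨_, rfl⟩
  have X0 : 0 ≤ X := by rw [← hX]; exact integral_nonneg fun z => sq_nonneg _
  have D0 : 0 ≤ D := by rw [← hD]; exact integral_nonneg fun z => sq_nonneg _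
  obtain ⟨st1, c, st2, st3⟩ := KLI_static A_IDN u μ hu hs
  rw [hX, hF2, hD] at st1
  rw [hD, hX, ha] at st2
  rw [ha, hF2] at st3
  rw [hF2] at hFs
  obtain ⟨hR, hDa, hXa⟩ := ELO_num1 a F2 X D c μ s hμ s0 s1 ha0 X0 D0 hFs st1 st2 st3
  have hs8 : s ^ 8 ≤ 1 := pow_le_one₀ s0.le s1
  have hs82 : s ^ 8 ≤ s ^ 2 := pow_le_pow_of_le_one s0.le s1 (by norm_num)
  have hD1 : D ≤ (1 + μ) * a := by
    refine hDa.trans (mul_le_mul_of_nonneg_right ?_ ha0.le)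
    linarith
  have cu := KLI_u_cont hu
  have cD := KLI_dD_cont hu
  have sD := KLI_dD_supp hs
  obtain ⟨E1, hE1⟩ : ∃ E1 : ℝ, E1 = 16000 * (A₁ / η ^ 5) * (1 + μ) ^ 3 * s ^ 4 := ⟨_, rfl⟩
  have hE10 : 0 ≤ E1 := by rw [hE1]; positivity
  obtain ⟨de, hde⟩ : ∃ de : (ℍ → ℝ) → ℝ, de = fun f => (∫ z : ℍ, f z * (dD u z ^ 2 - R * u z ^ 2)) / a :=
    ⟨_, rfl⟩
  obtain ⟨ka, hka⟩ : ∃ ka : (ℍ → ℝ) → ℝ, ka = fun f => (∫ z : ℍ, f z * (u z * dD u z)) / a := ⟨_, rfl⟩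
  have bde : BFun Γ de := by
    rw [hde]
    exact ELO_BFun Γ (fun z => dD u z ^ 2 - R * u z ^ 2) a ha0
      ((cD.pow 2).sub (continuous_const.mul (cu.pow 2)))
      ((KLI_sq_supp sD).sub ((KLI_sq_supp hs).mul_left))
  have bka : BFun Γ ka := by
    rw [hka]
    exact ELO_BFun Γ (fun z => u z * dD u z) a ha0 (cu.mul cD) sD.mul_left
  have hw2 := ELO_w2 hu hs R
  rw [hD, ha] at hw2
  have hw1 := ELO_w1 hu hs a ha
  rw [hD] at hw1
  have bound2 : ∀ (f : ℍ → ℝ) (m : ℝ), Continuous f → (∀ z, |f z| ≤ m) →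
      |de f| ≤ m * ((D + |R| * a) / a) := by
    intro f m cf hm
    have hm0 : 0 ≤ m := (abs_nonneg _).trans (hm UpperHalfPlane.I)
    rw [hde]
    show |(∫ z : ℍ, f z * (dD u z ^ 2 - R * u z ^ 2)) / a| ≤ m * ((D + |R| * a) / a)
    rw [abs_div, abs_of_pos ha0, ← mul_div_assoc]
    apply div_le_div_of_nonneg_right _ ha0.le
    refine (KLI_abs (w := fun z => dD u z ^ 2 - R * u z ^ 2) m cf hm
      ((cD.pow 2).sub (continuous_const.mul (cu.pow 2)))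
      ((KLI_sq_supp sD).sub ((KLI_sq_supp hs).mul_left))).trans ?_
    exact mul_le_mul_of_nonneg_left hw2 hm0
  have bound1 : ∀ (f : ℍ → ℝ) (m y : ℝ), Continuous f → (∀ z, |f z| ≤ m) → 0 ≤ y →
      D ≤ y ^ 2 * a → |ka f| ≤ m * y := by
    intro f m y cf hm hy hDy
    have hm0 : 0 ≤ m := (abs_nonneg _).trans (hm UpperHalfPlane.I)
    rw [hka]
    show |(∫ z : ℍ, f z * (u z * dD u z)) / a| ≤ m * y
    rw [abs_div, abs_of_pos ha0, div_le_iff₀ ha0]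
    refine (KLI_abs (w := fun z => u z * dD u z) m cf hm (cu.mul cD) sD.mul_left).trans ?_
    rw [mul_assoc]
    apply mul_le_mul_of_nonneg_left _ hm0
    have h5 : |(∫ z : ℍ, |u z * dD u z|)| ≤ y * a := by
      apply abs_le_of_sq_le_sq _ (by positivity)
      calc (∫ z : ℍ, |u z * dD u z|) ^ 2 ≤ a * D := hw1
        _ ≤ a * (y ^ 2 * a) := mul_le_mul_of_nonneg_left hDy ha0.le
        _ = (y * a) ^ 2 := by ring
    exact (le_abs_self _).trans h5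
  have hRabs : |R| ≤ 1 + μ := by
    rw [abs_le, hRd]
    constructor <;> linarith
  have hrel : ∀ (f : ℍ → ℝ) (m : ℝ), Continuous f → (∀ z, |f z| ≤ m) →
      |(∫ z : ℍ, lap (BB κ₁ η f) z * u z ^ 2) / a + 2 * de (BB κ₁ η f) + 2 * ka (BB κ₁ η f)| ≤ E1 * m ∧
      |ka (lap (BB κ₁ η f)) - (4 * R * ka (BB κ₁ η f) - de (BB κ₁ η f))| ≤ E1 * m ∧
      |de (lap (BB κ₁ η f)) - (4 * R * ka (BB κ₁ η f) + 4 * R * de (BB κ₁ η f))| ≤ E1 * m := by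
    intro f m cf hm
    have hm0 : 0 ≤ m := (abs_nonneg _).trans (hm UpperHalfPlane.I)
    obtain ⟨-, hFB, -⟩ := hEGB η f m hη hη1 cf hm
    obtain ⟨g, hg⟩ : ∃ g : ℍ → ℝ, BB κ₁ η f = g := ⟨_, rfl⟩
    rw [hg] at hFB ⊢
    have cg : Continuous g := KLI_u_cont hFB.1
    obtain ⟨r1, r2, r3⟩ := A_REL g u (A₁ / η ^ 5 * m) μ hFB hu hs
    rw [ha, hF2, hX, hD] at r1 r2 r3
    have hnum := ELO_num2 a F2 X D (A₁ / η ^ 5 * m) μ s hμ s0 s1 ha0 (by positivity) hFs hD1 hXa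
    have hEq : 16000 * (A₁ / η ^ 5 * m) * (1 + μ) ^ 3 * s ^ 4 * a = E1 * m * a := by
      rw [hE1]; ring
    rw [hEq] at hnum
    have e0 := ELO_split hu hs cg (μ - 1 / 4)
    rw [hde, hka, hRd]
    refine ⟨?_, ?_, ?_⟩
    · show |(∫ z : ℍ, lap g z * u z ^ 2) / a +
        2 * ((∫ z : ℍ, g z * (dD u z ^ 2 - (μ - 1 / 4) * u z ^ 2)) / a) +
        2 * ((∫ z : ℍ, g z * (u z * dD u z)) / a)| ≤ E1 * m
      have e : (∫ z : ℍ, lap g z * u z ^ 2) / a +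
        2 * ((∫ z : ℍ, g z * (dD u z ^ 2 - (μ - 1 / 4) * u z ^ 2)) / a) +
        2 * ((∫ z : ℍ, g z * (u z * dD u z)) / a) = ((∫ z : ℍ, lap g z * u z ^ 2) -
        (2 * (μ - 1 / 4) * (∫ z : ℍ, g z * u z ^ 2) - 2 * (∫ z : ℍ, g z * dD u z ^ 2) -
          2 * ∫ z : ℍ, g z * (u z * dD u z))) / a := by
        rw [e0]; ring
      rw [e, abs_div, abs_of_pos ha0, div_le_iff₀ ha0]
      exact r1.trans hnum
    · show |(∫ z : ℍ, lap g z * (u z * dD u z)) / a -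
        (4 * (μ - 1 / 4) * ((∫ z : ℍ, g z * (u z * dD u z)) / a) -
          (∫ z : ℍ, g z * (dD u z ^ 2 - (μ - 1 / 4) * u z ^ 2)) / a)| ≤ E1 * m
      have e : (∫ z : ℍ, lap g z * (u z * dD u z)) / a -
        (4 * (μ - 1 / 4) * ((∫ z : ℍ, g z * (u z * dD u z)) / a) -
          (∫ z : ℍ, g z * (dD u z ^ 2 - (μ - 1 / 4) * u z ^ 2)) / a) =
        ((∫ z : ℍ, lap g z * (u z * dD u z)) - (4 * (μ - 1 / 4) * (∫ z : ℍ, g z * (u z * dD u z)) -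
          ∫ z : ℍ, g z * (dD u z ^ 2 - (μ - 1 / 4) * u z ^ 2))) / a := by ring
      rw [e, abs_div, abs_of_pos ha0, div_le_iff₀ ha0]
      exact r2.trans hnum
    · show |(∫ z : ℍ, lap g z * (dD u z ^ 2 - (μ - 1 / 4) * u z ^ 2)) / a -
        (4 * (μ - 1 / 4) * ((∫ z : ℍ, g z * (u z * dD u z)) / a) +
          4 * (μ - 1 / 4) * ((∫ z : ℍ, g z * (dD u z ^ 2 - (μ - 1 / 4) * u z ^ 2)) / a))| ≤ E1 * m
      have e : (∫ z : ℍ, lap g z * (dD u z ^ 2 - (μ - 1 / 4) * u z ^ 2)) / a -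
        (4 * (μ - 1 / 4) * ((∫ z : ℍ, g z * (u z * dD u z)) / a) +
          4 * (μ - 1 / 4) * ((∫ z : ℍ, g z * (dD u z ^ 2 - (μ - 1 / 4) * u z ^ 2)) / a)) =
        ((∫ z : ℍ, lap g z * (dD u z ^ 2 - (μ - 1 / 4) * u z ^ 2)) -
          (4 * (μ - 1 / 4) * (∫ z : ℍ, g z * (u z * dD u z)) +
          4 * (μ - 1 / 4) * ∫ z : ℍ, g z * (dD u z ^ 2 - (μ - 1 / 4) * u z ^ 2))) / a := by ring
      rw [e, abs_div, abs_of_pos ha0, div_le_iff₀ ha0]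
      exact r3.trans hnum
  obtain ⟨hg1', hgFB, -⟩ := hEGB η g₀ 1 hη hη1 hg₀.1 hg1
  have cg : Continuous (BB κ₁ η g₀) := KLI_u_cont hgFB.1
  obtain ⟨q1, -, -⟩ := hrel g₀ 1 hg₀.1 hg1
  rw [mul_one] at q1
  have hfin := ELO_num3 A₁ A₂ η μ s R E1 ((∫ z : ℍ, lap (BB κ₁ η g₀) z * u z ^ 2) / a)
    (de (BB κ₁ η g₀)) (ka (BB κ₁ η g₀)) hA₁ hA₂ hη hη1 hμ s0 s1 hE1 q1 ?_ ?_
  · rw [abs_div, abs_of_pos ha0, div_le_iff₀ ha0] at hfin
    exact hfin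
  · intro hR2
    have hR0 : 0 ≤ R := le_trans (by positivity) hR2
    refine hEAB η R (2 * (1 + μ)) E1 de ka hη hη1 hR0 (by positivity) hE10 bde bka ?_ ?_ g₀ hg₀ hg1
    · intro f m hf hm
      have hm0 : 0 ≤ m := (abs_nonneg _).trans (hm UpperHalfPlane.I)
      constructor
      · refine (bound2 f m hf.1 hm).trans ?_
        rw [mul_comm]
        apply mul_le_mul_of_nonneg_right _ hm0
        rw [div_le_iff₀ ha0]
        have := mul_le_mul_of_nonneg_right hRabs ha0.le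
        linarith
      · refine (bound1 f m (1 + μ) hf.1 hm (by positivity) ?_).trans ?_
        · refine hD1.trans (mul_le_mul_of_nonneg_right ?_ ha0.le)
          nlinarith
        · rw [mul_comm]
          apply mul_le_mul_of_nonneg_right _ hm0
          linarith
    · intro f m hf hm
      obtain ⟨-, q2, q3⟩ := hrel f m hf.1 hm
      exact ⟨q3, q2⟩
  · intro hR2
    have hR1 : |R| ≤ s ^ 2 := by
      rw [abs_le]
      constructor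
      · rw [hRd]; linarith
      · exact hR2.le
    have hD2 : D ≤ 2 * s ^ 2 * a := by
      refine hDa.trans (mul_le_mul_of_nonneg_right ?_ ha0.le)
      rw [← hRd]
      linarith
    constructor
    · refine (bound2 _ 1 cg hg1').trans ?_
      rw [one_mul, div_le_iff₀ ha0]
      have := mul_le_mul_of_nonneg_right hR1 ha0.le
      linarith
    · refine (bound1 _ 1 (2 * s) cg hg1' (by positivity) ?_).trans (by rw [one_mul])
      refine hD2.trans (mul_le_mul_of_nonneg_right ?_ ha0.le)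
      nlinarith

/-- **ELO**. -/
theorem ELO (hEGB : EGB_stmt) (hEAB : EAB_stmt) : ELO_stmt := by
  intro κ₁ C hBF Γ F hΓ hF
  obtain ⟨A₁, hA₁, hEGB⟩ := hEGB κ₁ C hBF
  obtain ⟨A₂, hA₂, hEAB⟩ := hEAB κ₁ C hBF Γ F hΓ hF
  have hA12 : 1 ≤ A₁ * A₂ := one_le_mul_of_one_le_of_one_le hA₁ hA₂
  obtain ⟨B, hB⟩ : ∃ B : ℝ, B = 11 * (32000 * A₁ * A₂) := ⟨_, rfl⟩
  have hB1 : 1 ≤ B := by rw [hB]; nlinarith
  have hAB : 1 ≤ A₁ * B ^ 16 := one_le_mul_of_one_le_of_one_le hA₁ (one_le_pow₀ hB1)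
  refine ⟨A₁ * B ^ 16, hAB, ?_⟩
  intro η θ μ g₀ u hη hη1 hθ hθ1 hμ hg₀ hg1 hu' hs
  have hu : CD 2 u := ContDiffOn.of_le hu' (WithTop.coe_le_coe.2 (le_top : (2 : ℕ∞) ≤ ⊤))
  obtain ⟨a, ha⟩ : ∃ a : ℝ, ∫ z : ℍ, u z ^ 2 = a := ⟨_, rfl⟩
  obtain ⟨F2, hF2⟩ : ∃ F2 : ℝ, ∫ z : ℍ, (lap u z - μ * u z) ^ 2 = F2 := ⟨_, rfl⟩
  have ha0 : 0 ≤ a := by rw [← ha]; exact integral_nonneg fun z => sq_nonneg _
  have hF0 : 0 ≤ F2 := by rw [← hF2]; exact integral_nonneg fun z => sq_nonneg _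
  rw [ha, hF2]
  have h1μ : 1 ≤ 1 + μ := by linarith
  obtain ⟨-, -, hlap⟩ := hEGB η g₀ 1 hη hη1 hg₀.1 hg1
  rw [mul_one] at hlap
  have htriv : |∫ z : ℍ, lap (BB κ₁ η g₀) z * u z ^ 2| ≤ A₁ / η ^ 5 * a := by
    have h1 := KLI_abs (w := fun z => u z ^ 2) (A₁ / η ^ 5) (KLI_u_cont hlap.1)
      (fun z => (hlap.2 z).1) ((KLI_u_cont hu).pow 2) (KLI_sq_supp hs)
    have h2 : ∫ z : ℍ, |u z ^ 2| = a := by
      rw [← ha]
      exact integral_congr_ae (Eventually.of_forall fun z => abs_of_nonneg (sq_nonneg _))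
    rw [h2] at h1
    exact h1
  obtain ⟨s, hsd⟩ : ∃ s : ℝ, s = θ * η ^ 5 / (B * (1 + μ) ^ 3) := ⟨_, rfl⟩
  have s0 : 0 < s := by rw [hsd]; positivity
  have hη5 : η ^ 5 ≤ 1 := pow_le_one₀ hη.le hη1
  have s1 : s ≤ 1 := by
    rw [hsd, div_le_one (by positivity)]
    calc θ * η ^ 5 ≤ 1 * 1 := mul_le_mul hθ1 hη5 (by positivity) (by norm_num)
      _ ≤ B * (1 + μ) ^ 3 := by
        rw [one_mul]
        exact one_le_mul_of_one_le_of_one_le hB1 (one_le_pow₀ h1μ)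
  have hrhs : 0 ≤ A₁ * B ^ 16 * ((1 + μ) / (η * θ)) ^ 100 * F2 := by positivity
  rcases le_or_gt F2 (s ^ 16 * a) with hc | hc
  · rcases ha0.lt_or_eq with hap | haz
    · have h := ELO_core κ₁ Γ A₁ A₂ hA₁ hA₂ hEGB hEAB η μ s g₀ u hη hη1 hμ s0 s1 hg₀ hg1 hu hs a
        ha hap (by rw [hF2]; exact hc)
      have e : 11 * (32000 * A₁ * A₂ * (1 + μ) ^ 3 * s / η ^ 5) = θ := by
        have e1 : 11 * (32000 * A₁ * A₂ * (1 + μ) ^ 3 * s / η ^ 5) =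
            B * (1 + μ) ^ 3 * s / η ^ 5 := by rw [hB]; ring
        rw [e1, hsd]
        have hBp : B ≠ 0 := by positivity
        have hmp : (1 + μ) ≠ 0 := by positivity
        field_simp
      rw [e] at h
      linarith
    · rw [← haz, mul_zero] at htriv
      rw [← haz, mul_zero, zero_add]
      exact htriv.trans hrhs
  · have hs16 : 0 < s ^ 16 := by positivity
    have h1 : a ≤ F2 / s ^ 16 := by
      rw [le_div_iff₀ hs16]
      linarith [mul_comm a (s ^ 16)]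
    have h2 : A₁ / η ^ 5 * a ≤ A₁ * B ^ 16 * ((1 + μ) / (η * θ)) ^ 100 * F2 := by
      calc A₁ / η ^ 5 * a ≤ A₁ / η ^ 5 * (F2 / s ^ 16) := mul_le_mul_of_nonneg_left h1 (by positivity)
        _ = A₁ * B ^ 16 * ((1 + μ) ^ 48 / (η ^ 85 * θ ^ 16)) * F2 := by
          rw [hsd]
          have hBp : B ≠ 0 := by positivity
          have hmp : (1 + μ) ≠ 0 := by positivity
          field_simp
        _ ≤ A₁ * B ^ 16 * ((1 + μ) / (η * θ)) ^ 100 * F2 := by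
          apply mul_le_mul_of_nonneg_right _ hF0
          apply mul_le_mul_of_nonneg_left _ (by positivity)
          rw [div_pow, mul_pow]
          apply div_le_div₀ (by positivity) _ (by positivity) _
          · exact pow_le_pow_right₀ h1μ (by norm_num)
          · apply mul_le_mul _ _ (by positivity) (by positivity)
            · exact pow_le_pow_of_le_one hη.le hη1 (by norm_num)
            · exact pow_le_pow_of_le_one hθ.le hθ1 (by norm_num)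
    have h3 : 0 ≤ θ * a := by positivity
    linarith

end Pool.Agent.QX
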