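import Pool.Agent.helper62.QX.SpecT

/-! Row TVN of project qt (MP_07c750_an) -/

set_option autoImplicit false

open scoped Topology
open Filter Set Polynomial
open Pool.Agent.QU Pool.Agent.RP

namespace Pool.Agent.QX

theorem TVN : TVN_stmt := by
  intro e ν₀ ν₁ B h1 h2 N hN
  have t1 : ∀ C : ℝ, Tendsto (fun N : ℕ => C / (N : ℝ)) atTop (𝓝 0) := fun C =>
    tendsto_const_div_atTop_nhds_zero_nat C
  have t2 : Tendsto (fun N : ℕ => B / (N : ℝ) ^ 2) atTop (𝓝 0) :=
    (tendsto_const_div_pow B 2 two_ne_zero).comp tendsto_natCast_atTop_atTop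
  have hν₀ : ν₀ = 0 := by
    have t3 : Tendsto (fun N : ℕ => B / (N : ℝ) ^ 2 + 1 / (N : ℝ) + |ν₁| / (N : ℝ)) atTop (𝓝 (0 + 0 + 0)) :=
      (t2.add (t1 1)).add (t1 |ν₁|)
    have h3 : |ν₀| ≤ 0 + 0 + 0 := by
      refine ge_of_tendsto t3 ?_
      filter_upwards [h2 1 one_pos, Filter.eventually_ge_atTop 1] with M hM1 hM2
      have h4 := h1 M hM2
      have e1 : ν₀ = -(e M - ν₀ - ν₁ / M) + e M - ν₁ / M := by ring
      have h5 : |ν₁ / (M : ℝ)| = |ν₁| / (M : ℝ) := by rw [abs_div, Nat.abs_cast]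
      calc |ν₀| = |-(e M - ν₀ - ν₁ / M) + e M - ν₁ / M| := congrArg _ e1
        _ ≤ |-(e M - ν₀ - ν₁ / M) + e M| + |ν₁ / M| := abs_sub _ _
        _ ≤ |-(e M - ν₀ - ν₁ / M)| + |e M| + |ν₁ / M| := by
            have := abs_add_le (-(e M - ν₀ - ν₁ / M)) (e M)
            linarith
        _ ≤ _ := by
            rw [abs_neg, h5]
            linarith
    have h4 : |ν₀| ≤ 0 := by linarith
    exact abs_eq_zero.1 (le_antisymm h4 (abs_nonneg _))
  subst hν₀
  have hν₁ : ν₁ = 0 := by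
    have h3 : |ν₁| ≤ 0 := by
      apply le_of_forall_pos_le_add
      intro ε hε
      rw [zero_add]
      have t3 : Tendsto (fun N : ℕ => B / (N : ℝ) + ε) atTop (𝓝 (0 + ε)) := (t1 B).add tendsto_const_nhds
      rw [zero_add] at t3
      refine ge_of_tendsto t3 ?_
      filter_upwards [h2 ε hε, Filter.eventually_ge_atTop 1] with M hM1 hM2
      have h4 := h1 M hM2
      have hM0 : (0 : ℝ) < (M : ℝ) := by exact_mod_cast hM2
      have e1 : ν₁ / (M : ℝ) = -(e M - 0 - ν₁ / M) + e M := by ring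
      have h5 : |ν₁| / (M : ℝ) ≤ B / (M : ℝ) ^ 2 + ε / (M : ℝ) := by
        calc |ν₁| / (M : ℝ) = |ν₁ / (M : ℝ)| := by rw [abs_div, Nat.abs_cast]
          _ = |-(e M - 0 - ν₁ / M) + e M| := congrArg _ e1
          _ ≤ |-(e M - 0 - ν₁ / M)| + |e M| := abs_add_le _ _
          _ ≤ _ := by
              rw [abs_neg]
              linarith
      have h6 : B / (M : ℝ) ^ 2 + ε / (M : ℝ) = (B / (M : ℝ) + ε) / (M : ℝ) := by
        field_simp
      rw [h6] at h5
      exact (div_le_div_iff_of_pos_right hM0).1 h5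
    exact abs_eq_zero.1 (le_antisymm h3 (abs_nonneg _))
  subst hν₁
  have h7 := h1 N hN
  rw [zero_div, sub_zero, sub_zero] at h7
  exact h7

end Pool.Agent.QX
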